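import Pool.Agent.H820R5.BW.Prog

/-!
Membership in the sets of crossing rows and columns.
-/

namespace Pool.Agent.H820R5.BW

open Finset

variable {K : Type*} [CommRing K] {a b : ℕ} {A : Matrix (Fin a) (Fin b) K}
  {pos : Fin a → Fin b → ℕ}

theorem mem_LR {t : ℕ} {i : Fin a} : i ∈ LR A pos t ↔
    (∃ j, A i j ≠ 0 ∧ pos i j < t) ∧ ∃ j, A i j ≠ 0 ∧ t ≤ pos i j := by
  classical
  unfold LR
  rw [mem_filter]
  exact ⟨fun h => h.2, fun h => ⟨mem_univ _, h⟩⟩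

theorem mem_LC {t : ℕ} {j : Fin b} : j ∈ LC A pos t ↔
    (∃ i, A i j ≠ 0 ∧ pos i j < t) ∧ ∃ i, A i j ≠ 0 ∧ t ≤ pos i j := by
  classical
  unfold LC
  rw [mem_filter]
  exact ⟨fun h => h.2, fun h => ⟨mem_univ _, h⟩⟩

end Pool.Agent.H820R5.BW
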