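import Mathlib
import Pool.Agent.H530R2.Spa2
import Pool.Agent.H820R5.BW.Mem

/-!
Determinants of polynomial matrices of bounded width are not killed by the generator with base
point the interpolated prime powers (adapted from `narrow_hit` of helper530).
-/

namespace Pool.Agent.H820R5.BW

open MvPolynomial Finset Pool.Agent.H530R2

open Pool.Agent.H626R2.Loc (evG base)

theorem cont_eq {n u : ℕ} (c₀ : Fin u → MvPolynomial (Fin n) ℂ)
    (M : ℕ → Matrix (Fin u) (Fin u) (MvPolynomial (Fin n) ℂ)) (t : ℕ) :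
    cont c₀ M t = lin c₀ M t := by
  induction t with
  | zero => rfl
  | succ t ih => simp only [cont, lin, ih]

theorem width_hit (w : ℕ) : ∃ A m : ℕ, ∀ n s N : ℕ, (s + 2) ^ A ≤ N →
    ∀ (R : ℕ) (M : Matrix (Fin R) (Fin R) (MvPolynomial (Fin n) ℂ)) (pos : Fin R → Fin R → ℕ),
    Inj M pos → (∀ t, (LR M pos t).card ≤ w ∧ (LC M pos t).card ≤ w) →
    (∀ x : Fin n, {ij : Fin R × Fin R | x ∈ (M ij.1 ij.2).vars}.ncard ≤ w) →
    (∀ a c, (M a c).support.card ≤ s + 2) → M.det ≠ 0 → evG ℂ (base ℂ n N) m M.det ≠ 0 := by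
  classical
  by_contra hcon
  push Not at hcon
  choose n_ s_ N_ hN R_ M_ pos_ hM0 hM1 hM2 hM3 hM4 hM5 using fun k => hcon k k
  have hV : ∀ k, ∀ h : MvPolynomial (Fin (n_ k)) ℂ, h ≠ 0 → h.support.card ≤ (s_ k + 2) ^ k →
      ∀ Y, map (algebraMap ℂ (RatFunc ℂ)) h ∉ (bVan (n_ k) (N_ k)).I 0 Y :=
    fun k h h0 hs Y => bVan_hit h0 (hs.trans (hN k)) Y
  set 𝔎 : Fam (RatFunc ℂ) := seqFam n_ (fun k => s_ k + 2) (fun k => Nat.le_add_left _ _)
    (fun k => bVan (n_ k) (N_ k)) hV with h𝔎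
  have hmem : ∀ k, map (algebraMap ℂ (RatFunc ℂ)) (M_ k).det ∈
      𝔎.next.K k (n_ k) (1 + 4 ^ w * 4 ^ w + w) := by
    intro k
    obtain ⟨T, hT⟩ : ∃ T, ∀ i j, M_ k i j ≠ 0 → pos_ k i j < T := by
      refine ⟨∑ i, ∑ j, (pos_ k i j + 1), fun i j _ => ?_⟩
      have h1 : pos_ k i j + 1 ≤ ∑ j, (pos_ k i j + 1) :=
        Finset.single_le_sum (f := fun j => pos_ k i j + 1) (fun _ _ => Nat.zero_le _) (mem_univ j)
      have h2 : ∑ j, (pos_ k i j + 1) ≤ ∑ i, ∑ j, (pos_ k i j + 1) :=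
        Finset.single_le_sum (f := fun i => ∑ j, (pos_ k i j + 1)) (fun _ _ => Nat.zero_le _)
          (mem_univ i)
      omega
    obtain ⟨c₀, P, p, hc, hP, hp⟩ := exists_program (hM0 k) (le_refl (4^w)) (hM1 k) hT
    have hc' : ∀ q, ∃ z : ℂ, c₀ q = C z := by
      intro q
      rcases hc q with h | h
      · exact ⟨0, by rw [h, C_0]⟩
      · exact ⟨1, by rw [h, C_1]⟩
    choose c₁ hc₁ using hc'
    have hc₀ : c₀ = fun q => C (c₁ q) := funext hc₁
    have hPK : ∀ t i j, (P t).map (map (algebraMap ℂ (RatFunc ℂ))) i j ∈ 𝔎.K k (n_ k) 1 := by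
      intro t i j
      rw [Matrix.map_apply]
      refine ⟨Unit, inferInstance, fun _ => P t i j, by simp, fun _ => ?_,
        Algebra.subset_adjoin ⟨(), rfl⟩⟩
      rw [pow_one]
      rcases hP t i j with h | h | ⟨i', j', h0, hp, h | h⟩
      · rw [h, support_zero, Finset.card_empty]
        exact Nat.zero_le _
      · rw [h, show (1 : MvPolynomial (Fin (n_ k)) ℂ) = monomial 0 1 from rfl]
        refine (card_le_card support_monomial_subset).trans ?_
        rw [card_singleton]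
        show 1 ≤ s_ k + 2
        omega
      · rw [h]
        exact hM3 k _ _
      · rw [h, MvPolynomial.support_neg]
        exact hM3 k _ _
    rw [← hp, cont_eq, hc₀, lin_map]
    refine lin_out (κ := w) (c₀ := fun p => C (algebraMap ℂ (RatFunc ℂ) (c₁ p)))
      (fun i => ⟨_, rfl⟩) hPK T ?_ (by omega) (by omega) (by omega)
      (Algebra.subset_adjoin ⟨p, rfl⟩)
    intro x
    have hx := hM2 k x
    rw [Set.ncard_eq_toFinset_card'] at hx
    refine le_trans ?_ hx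
    refine (Finset.card_le_card (t := ({ij : Fin (R_ k) × Fin (R_ k) |
      x ∈ (M_ k ij.1 ij.2).vars}.toFinset).image (fun ij => pos_ k ij.1 ij.2)) ?_).trans
      Finset.card_image_le
    intro t ht
    rw [Finset.mem_filter, Finset.mem_range] at ht
    obtain ⟨-, hx⟩ := ht
    obtain ⟨p', q', hx⟩ := mem_mv.1 hx
    rw [Matrix.map_apply] at hx
    have hx' : x ∈ (P t p' q').vars := by
      rw [mem_vars_iff_mem_support] at hx ⊢
      obtain ⟨e, he, hxe⟩ := hx
      exact ⟨e, support_map_subset _ _ he, hxe⟩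
    rcases hP t p' q' with h | h | ⟨i, j, h0, hp, h | h⟩
    · rw [h, vars_0] at hx'
      exact absurd hx' (Finset.notMem_empty _)
    · rw [h, vars_one] at hx'
      exact absurd hx' (Finset.notMem_empty _)
    · rw [h] at hx'
      exact mem_image.2 ⟨(i, j), Set.mem_toFinset.2 hx', hp⟩
    · rw [h, MvPolynomial.vars_neg] at hx'
      exact mem_image.2 ⟨(i, j), Set.mem_toFinset.2 hx', hp⟩
  obtain ⟨m₀, hm₀⟩ := 𝔎.next.seeds (1 + 4 ^ w * 4 ^ w + w)
  have h1 := hm₀ m₀ (n_ m₀) (bVan (n_ m₀) (N_ m₀)) rfl _ (hmem m₀) ∅ (mem_bVan (hM5 m₀))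
  apply hM4 m₀
  exact (map_injective _ (algebraMap ℂ (RatFunc ℂ)).injective) (by rw [h1, map_zero])

end Pool.Agent.H820R5.BW
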