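import Mathlib

/-!
Minors of a matrix on sets of rows and columns, and the change of one entry.
-/

namespace Pool.Agent.H820R5.BW

open Finset

variable {K : Type*} [CommRing K] {a b : ℕ}

/-- the minor on the rows in `R` and the columns in `C` (`0` if `R`, `C` have different sizes) -/
noncomputable def mn (B : Matrix (Fin a) (Fin b) K) (R : Finset (Fin a)) (C : Finset (Fin b)) : K :=
  if h : C.card = R.card then (B.submatrix (R.orderEmbOfFin rfl) (C.orderEmbOfFin h)).det else 0

theorem mn_eq (B : Matrix (Fin a) (Fin b) K) {R : Finset (Fin a)} {C : Finset (Fin b)} {q : ℕ}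
    (e : Fin q → Fin a) (f : Fin q → Fin b) (he : StrictMono e) (hf : StrictMono f)
    (hR : univ.image e = R) (hC : univ.image f = C) : mn B R C = (B.submatrix e f).det := by
  have h1 : q = R.card := by
    rw [← hR, card_image_of_injective _ he.injective, card_univ, Fintype.card_fin]
  have h2 : C.card = q := by
    rw [← hC, card_image_of_injective _ hf.injective, card_univ, Fintype.card_fin]
  subst h1
  unfold mn
  rw [dif_pos h2]
  have e1 : e = R.orderEmbOfFin rfl :=
    Finset.orderEmbOfFin_unique rfl (fun x => by rw [← hR]; exact mem_image_of_mem _ (mem_univ _)) he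
  have e2 : f = C.orderEmbOfFin h2 :=
    Finset.orderEmbOfFin_unique h2 (fun x => by rw [← hC]; exact mem_image_of_mem _ (mem_univ _)) hf
  rw [← e1, ← e2]

/-- `B` with the entry `(i, j)` replaced by `v` -/
def upd (B : Matrix (Fin a) (Fin b) K) (i : Fin a) (j : Fin b) (v : K) : Matrix (Fin a) (Fin b) K :=
  fun i' j' => if i' = i ∧ j' = j then v else B i' j'

theorem det_upd_aux {q : ℕ} (B : Matrix (Fin a) (Fin b) K) (i : Fin a) (j : Fin b) (v : K)
    (h0 : B i j = 0) (e : Fin (q+1) → Fin a) (f : Fin (q+1) → Fin b) (he : Function.Injective e)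
    (hf : Function.Injective f) (k l : Fin (q+1)) (hk : e k = i) (hl : f l = j) :
    ((upd B i j v).submatrix e f).det = (B.submatrix e f).det +
      (-1)^((k:ℕ)+l) * v * (B.submatrix (e ∘ k.succAbove) (f ∘ l.succAbove)).det := by
  rw [Matrix.det_succ_row _ k, Matrix.det_succ_row (B.submatrix e f) k]
  have hsub : ∀ m : Fin (q+1), ((upd B i j v).submatrix e f).submatrix k.succAbove m.succAbove =
      (B.submatrix e f).submatrix k.succAbove m.succAbove := by
    intro m
    ext x y
    simp only [Matrix.submatrix_apply, upd]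
    rw [if_neg]
    rintro ⟨h1, _⟩
    rw [← hk] at h1
    exact Fin.succAbove_ne k x (he h1)
  simp only [hsub]
  rw [← Finset.add_sum_erase _ _ (mem_univ l), ← Finset.add_sum_erase univ
    (fun m : Fin (q+1) => (-1)^((k:ℕ)+(m:ℕ)) * (B.submatrix e f) k m *
      ((B.submatrix e f).submatrix k.succAbove m.succAbove).det) (mem_univ l)]
  have h1 : ((upd B i j v).submatrix e f) k l = v := by
    simp [upd, hk, hl]
  have h2 : (B.submatrix e f) k l = 0 := by simp [hk, hl, h0]
  have h3 : ∑ m ∈ univ.erase l, (-1)^((k:ℕ)+m) * ((upd B i j v).submatrix e f) k m *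
      ((B.submatrix e f).submatrix k.succAbove m.succAbove).det =
      ∑ m ∈ univ.erase l, (-1)^((k:ℕ)+m) * (B.submatrix e f) k m *
      ((B.submatrix e f).submatrix k.succAbove m.succAbove).det := by
    apply Finset.sum_congr rfl
    intro m hm
    have : ((upd B i j v).submatrix e f) k m = (B.submatrix e f) k m := by
      simp only [Matrix.submatrix_apply, upd]
      rw [if_neg]
      rintro ⟨_, h⟩
      rw [← hl] at h
      exact (Finset.mem_erase.1 hm).1 (hf h)
    rw [this]
  rw [h1, h3, h2]
  simp only [Matrix.submatrix_submatrix]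
  ring

theorem mn_card {B : Matrix (Fin a) (Fin b) K} {R : Finset (Fin a)} {C : Finset (Fin b)}
    (h : C.card ≠ R.card) : mn B R C = 0 := by
  unfold mn; rw [dif_neg h]

theorem erase_image {q : ℕ} {α : Type*} [DecidableEq α] {e : Fin (q+1) → α} {R : Finset α}
    (hR : univ.image e = R) (he : Function.Injective e) (k : Fin (q+1)) :
    univ.image (e ∘ k.succAbove) = R.erase (e k) := by
  ext x
  simp only [mem_image, mem_univ, true_and, Function.comp_apply, mem_erase]
  constructor
  · rintro ⟨m, rfl⟩
    refine ⟨fun h => Fin.succAbove_ne k m (he h), ?_⟩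
    rw [← hR]; exact mem_image_of_mem _ (mem_univ _)
  · rintro ⟨hx, hxR⟩
    rw [← hR] at hxR
    obtain ⟨m, -, rfl⟩ := mem_image.1 hxR
    have hm : m ≠ k := fun h => hx (by rw [h])
    obtain ⟨m', hm'⟩ := Fin.exists_succAbove_eq hm
    exact ⟨m', by rw [hm']⟩

/-- the change of one entry -/
theorem mn_upd (B : Matrix (Fin a) (Fin b) K) (i : Fin a) (j : Fin b) (h0 : B i j = 0)
    (R : Finset (Fin a)) (C : Finset (Fin b)) : ∃ ε : ℤ, (ε = 1 ∨ ε = -1) ∧ ∀ v : K,
    mn (upd B i j v) R C = mn B R C +
      (if i ∈ R ∧ j ∈ C then (ε : K) * v * mn B (R.erase i) (C.erase j) else 0) := by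
  classical
  by_cases hij : i ∈ R ∧ j ∈ C
  · by_cases hc : C.card = R.card
    · obtain ⟨q, hq⟩ : ∃ q, R.card = q + 1 := ⟨R.card - 1, by
        have := Finset.card_pos.2 ⟨i, hij.1⟩; omega⟩
      have hq2 : C.card = q + 1 := hc.trans hq
      obtain ⟨e, he⟩ : ∃ e : Fin (q+1) → Fin a, e = ⇑(R.orderEmbOfFin hq) := ⟨_, rfl⟩
      obtain ⟨f, hf⟩ : ∃ f : Fin (q+1) → Fin b, f = ⇑(C.orderEmbOfFin hq2) := ⟨_, rfl⟩
      have hem : StrictMono e := by rw [he]; exact (R.orderEmbOfFin hq).strictMono
      have hfm : StrictMono f := by rw [hf]; exact (C.orderEmbOfFin hq2).strictMono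
      have hR : univ.image e = R := by
        rw [he]; exact Finset.image_orderEmbOfFin_univ R hq
      have hC : univ.image f = C := by
        rw [hf]; exact Finset.image_orderEmbOfFin_univ C hq2
      obtain ⟨k, -, hk⟩ := mem_image.1 (by rw [hR]; exact hij.1 : i ∈ univ.image e)
      obtain ⟨l, -, hl⟩ := mem_image.1 (by rw [hC]; exact hij.2 : j ∈ univ.image f)
      refine ⟨(-1)^((k:ℕ)+l), neg_one_pow_eq_or ℤ _, fun v => ?_⟩
      rw [if_pos hij, mn_eq _ e f hem hfm hR hC, mn_eq B e f hem hfm hR hC,
        mn_eq B (e ∘ k.succAbove) (f ∘ l.succAbove) (hem.comp (Fin.strictMono_succAbove k))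
          (hfm.comp (Fin.strictMono_succAbove l))
          (by rw [← hk]; exact erase_image hR hem.injective k)
          (by rw [← hl]; exact erase_image hC hfm.injective l),
        det_upd_aux B i j v h0 e f hem.injective hfm.injective k l hk hl]
      push_cast
      ring
    · refine ⟨1, Or.inl rfl, fun v => ?_⟩
      rw [mn_card hc, mn_card hc, mn_card (B := B) (R := R.erase i) (C := C.erase j)]
      · simp
      · rw [card_erase_of_mem hij.1, card_erase_of_mem hij.2]
        have h1 := Finset.card_pos.2 ⟨i, hij.1⟩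
        have h2 := Finset.card_pos.2 ⟨j, hij.2⟩
        omega
  · refine ⟨1, Or.inl rfl, fun v => ?_⟩
    rw [if_neg hij, add_zero]
    unfold mn
    split_ifs with h
    · congr 1
      ext x y
      simp only [Matrix.submatrix_apply, upd]
      rw [if_neg]
      rintro ⟨h1, h2⟩
      exact hij ⟨by rw [← h1]; exact Finset.orderEmbOfFin_mem _ _ _,
        by rw [← h2]; exact Finset.orderEmbOfFin_mem _ _ _⟩
    · rfl

theorem mn_row_zero (B : Matrix (Fin a) (Fin b) K) {R : Finset (Fin a)} {C : Finset (Fin b)}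
    {i : Fin a} (hi : i ∈ R) (h : ∀ j, B i j = 0) : mn B R C = 0 := by
  classical
  unfold mn
  split_ifs with hc
  · have hR := Finset.image_orderEmbOfFin_univ R rfl
    obtain ⟨k, -, hk⟩ := mem_image.1 (by rw [hR]; exact hi : i ∈ univ.image (R.orderEmbOfFin rfl))
    exact Matrix.det_eq_zero_of_row_eq_zero k (fun m => by
      rw [Matrix.submatrix_apply, hk]; exact h _)
  · rfl

theorem mn_col_zero (B : Matrix (Fin a) (Fin b) K) {R : Finset (Fin a)} {C : Finset (Fin b)}
    {j : Fin b} (hj : j ∈ C) (h : ∀ i, B i j = 0) : mn B R C = 0 := by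
  classical
  unfold mn
  split_ifs with hc
  · have hC := Finset.image_orderEmbOfFin_univ C hc
    obtain ⟨k, -, hk⟩ := mem_image.1 (by rw [hC]; exact hj : j ∈ univ.image (C.orderEmbOfFin hc))
    exact Matrix.det_eq_zero_of_column_eq_zero k (fun m => by
      rw [Matrix.submatrix_apply, hk]; exact h _)
  · rfl

theorem mn_univ (B : Matrix (Fin a) (Fin a) K) : mn B univ univ = B.det := by
  rw [mn_eq B id id strictMono_id strictMono_id (by simp) (by simp)]
  rfl

theorem mn_zero (R : Finset (Fin a)) (C : Finset (Fin b)) :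
    mn (0 : Matrix (Fin a) (Fin b) K) R C = 0 ∨ mn (0 : Matrix (Fin a) (Fin b) K) R C = 1 := by
  unfold mn
  split_ifs with h
  · rcases Nat.eq_zero_or_pos R.card with h0 | h0
    · right
      have : IsEmpty (Fin R.card) := by rw [h0]; infer_instance
      exact Matrix.det_isEmpty
    · left
      have : Nonempty (Fin R.card) := ⟨⟨0, h0⟩⟩
      have : (0 : Matrix (Fin a) (Fin b) K).submatrix (R.orderEmbOfFin rfl) (C.orderEmbOfFin h) = 0 := by
        ext; rfl
      rw [this, Matrix.det_zero]
  · left; rfl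

end Pool.Agent.H820R5.BW
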