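import Pool.Agent.H820R5.BW.Minor

/-!
The determinant of a matrix whose nonzero entries can be listed with few rows and columns crossing
every cut, as the content of a register of a linear program with few registers.
-/

namespace Pool.Agent.H820R5.BW

open Finset

variable {K : Type*} [CommRing K] {a b : ℕ}

/-- the entries listed before the time `t` -/
def part (A : Matrix (Fin a) (Fin b) K) (pos : Fin a → Fin b → ℕ) (t : ℕ) :
    Matrix (Fin a) (Fin b) K := fun i j => if pos i j < t then A i j else 0

theorem part_apply (A : Matrix (Fin a) (Fin b) K) (pos : Fin a → Fin b → ℕ) (t : ℕ) (i : Fin a)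
    (j : Fin b) : part A pos t i j = if pos i j < t then A i j else 0 := rfl

theorem upd_apply (B : Matrix (Fin a) (Fin b) K) (i : Fin a) (j : Fin b) (v : K) (i' : Fin a)
    (j' : Fin b) : upd B i j v i' j' = if i' = i ∧ j' = j then v else B i' j' := rfl

open Classical in
/-- the rows which cross the cut at `t` -/
noncomputable def LR (A : Matrix (Fin a) (Fin b) K) (pos : Fin a → Fin b → ℕ) (t : ℕ) :
    Finset (Fin a) :=
    univ.filter fun i => (∃ j, A i j ≠ 0 ∧ pos i j < t) ∧ ∃ j, A i j ≠ 0 ∧ t ≤ pos i j

open Classical in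
/-- the columns which cross the cut at `t` -/
noncomputable def LC (A : Matrix (Fin a) (Fin b) K) (pos : Fin a → Fin b → ℕ) (t : ℕ) :
    Finset (Fin b) :=
    univ.filter fun j => (∃ i, A i j ≠ 0 ∧ pos i j < t) ∧ ∃ i, A i j ≠ 0 ∧ t ≤ pos i j

open Classical in
noncomputable def FR (A : Matrix (Fin a) (Fin b) K) (pos : Fin a → Fin b → ℕ) (t : ℕ) :
    Finset (Fin a) :=
  univ.filter fun i => ∀ j, A i j ≠ 0 → pos i j < t

open Classical in
noncomputable def FC (A : Matrix (Fin a) (Fin b) K) (pos : Fin a → Fin b → ℕ) (t : ℕ) :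
    Finset (Fin b) :=
  univ.filter fun j => ∀ i, A i j ≠ 0 → pos i j < t

open Classical in
noncomputable def KK (A : Matrix (Fin a) (Fin b) K) (pos : Fin a → Fin b → ℕ) (t : ℕ) :
    Finset (Finset (Fin a) × Finset (Fin b)) :=
  ((LR A pos t).powerset ×ˢ (LC A pos t).powerset).image
    fun S => (FR A pos t ∪ S.1, FC A pos t ∪ S.2)

variable {A : Matrix (Fin a) (Fin b) K} {pos : Fin a → Fin b → ℕ}

theorem KK_card {w t : ℕ} (h1 : (LR A pos t).card ≤ w) (h2 : (LC A pos t).card ≤ w) :
    (KK A pos t).card ≤ 4^w := by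
  classical
  unfold KK
  refine card_image_le.trans ?_
  rw [card_product, card_powerset, card_powerset, show (4:ℕ) = 2*2 by norm_num, mul_pow]
  exact Nat.mul_le_mul (Nat.pow_le_pow_right (by norm_num) h1) (Nat.pow_le_pow_right (by norm_num) h2)

theorem KK_sup {t : ℕ} {x : Finset (Fin a) × Finset (Fin b)} (h : x ∈ KK A pos t) :
    FR A pos t ⊆ x.1 ∧ FC A pos t ⊆ x.2 := by
  classical
  unfold KK at h
  obtain ⟨S, -, rfl⟩ := mem_image.1 h
  exact ⟨subset_union_left, subset_union_left⟩

theorem KK_or {t : ℕ} {R : Finset (Fin a)} {C : Finset (Fin b)} (h1 : FR A pos t ⊆ R)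
    (h2 : FC A pos t ⊆ C) : (R, C) ∈ KK A pos t ∨ mn (part A pos t) R C = 0 := by
  classical
  by_cases hR : R ⊆ FR A pos t ∪ LR A pos t
  · by_cases hC : C ⊆ FC A pos t ∪ LC A pos t
    · left
      unfold KK
      refine mem_image.2 ⟨(R ∩ LR A pos t, C ∩ LC A pos t), mem_product.2
        ⟨mem_powerset.2 inter_subset_right, mem_powerset.2 inter_subset_right⟩, ?_⟩
      ext x
      · simp only [mem_union, mem_inter]
        constructor
        · rintro (h | h)
          · exact h1 h
          · exact h.1
        · intro h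
          rcases mem_union.1 (hR h) with h' | h'
          · exact Or.inl h'
          · exact Or.inr ⟨h, h'⟩
      · simp only [mem_union, mem_inter]
        constructor
        · rintro (h | h)
          · exact h2 h
          · exact h.1
        · intro h
          rcases mem_union.1 (hC h) with h' | h'
          · exact Or.inl h'
          · exact Or.inr ⟨h, h'⟩
    · right
      obtain ⟨j, hj, hj2⟩ := not_subset.1 hC
      rw [mem_union, not_or] at hj2
      refine mn_col_zero _ hj fun i => ?_
      rw [part_apply]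
      by_cases hp : pos i j < t
      · rw [if_pos hp]
        by_contra hA
        apply hj2.2
        unfold LC
        rw [mem_filter]
        refine ⟨mem_univ _, ⟨i, hA, hp⟩, ?_⟩
        by_contra hno
        apply hj2.1
        unfold FC
        rw [mem_filter]
        refine ⟨mem_univ _, fun i' hi' => ?_⟩
        by_contra hlt
        exact hno ⟨i', hi', not_lt.1 hlt⟩
      · rw [if_neg hp]
  · right
    obtain ⟨i, hi, hi2⟩ := not_subset.1 hR
    rw [mem_union, not_or] at hi2
    refine mn_row_zero _ hi fun j => ?_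
    rw [part_apply]
    by_cases hp : pos i j < t
    · rw [if_pos hp]
      by_contra hA
      apply hi2.2
      unfold LR
      rw [mem_filter]
      refine ⟨mem_univ _, ⟨j, hA, hp⟩, ?_⟩
      by_contra hno
      apply hi2.1
      unfold FR
      rw [mem_filter]
      refine ⟨mem_univ _, fun j' hj' => ?_⟩
      by_contra hlt
      exact hno ⟨j', hj', not_lt.1 hlt⟩
    · rw [if_neg hp]

theorem FR_mono (t : ℕ) : FR A pos t ⊆ FR A pos (t+1) := by
  classical
  intro i hi
  unfold FR at hi ⊢
  rw [mem_filter] at hi ⊢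
  exact ⟨hi.1, fun j hj => (hi.2 j hj).trans (Nat.lt_succ_self t)⟩

theorem FC_mono (t : ℕ) : FC A pos t ⊆ FC A pos (t+1) := by
  classical
  intro i hi
  unfold FC at hi ⊢
  rw [mem_filter] at hi ⊢
  exact ⟨hi.1, fun j hj => (hi.2 j hj).trans (Nat.lt_succ_self t)⟩

/-- distinct nonzero entries have distinct positions -/
def Inj (A : Matrix (Fin a) (Fin b) K) (pos : Fin a → Fin b → ℕ) : Prop :=
  ∀ i j i' j', A i j ≠ 0 → A i' j' ≠ 0 → pos i j = pos i' j' → i = i' ∧ j = j'

theorem part_succ (hinj : Inj A pos) {t : ℕ} {i : Fin a} {j : Fin b} (h0 : A i j ≠ 0)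
    (ht : pos i j = t) : part A pos (t+1) = upd (part A pos t) i j (A i j) := by
  classical
  ext i' j'
  rw [upd_apply, part_apply, part_apply]
  by_cases h : i' = i ∧ j' = j
  · rw [if_pos h, h.1, h.2, if_pos (by omega)]
  · rw [if_neg h]
    by_cases h1 : pos i' j' < t
    · rw [if_pos h1, if_pos (by omega)]
    · rw [if_neg h1]
      by_cases h2 : pos i' j' < t+1
      · rw [if_pos h2]
        by_contra hA
        exact h (hinj _ _ _ _ hA h0 (by omega))
      · rw [if_neg h2]

theorem part_succ_none {t : ℕ} (h : ∀ i j, A i j ≠ 0 → pos i j ≠ t) :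
    part A pos (t+1) = part A pos t := by
  classical
  ext i' j'
  rw [part_apply, part_apply]
  by_cases h1 : pos i' j' < t
  · rw [if_pos h1, if_pos (by omega)]
  · rw [if_neg h1]
    by_cases h2 : pos i' j' < t+1
    · rw [if_pos h2]
      by_contra hA
      exact h _ _ hA (by omega)
    · rw [if_neg h2]

/-- the allowed entries of the matrices of the program -/
def Ok (A : Matrix (Fin a) (Fin b) K) (pos : Fin a → Fin b → ℕ) (t : ℕ) (z : K) : Prop :=
  z = 0 ∨ z = 1 ∨ ∃ i j, A i j ≠ 0 ∧ pos i j = t ∧ (z = A i j ∨ z = - A i j)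

/-- one step of the program -/
theorem step (hinj : Inj A pos) (t u : ℕ) (dec : Fin u → Finset (Fin a) × Finset (Fin b))
    (rep : Finset (Fin a) × Finset (Fin b) → Fin u)
    (hrep : ∀ x ∈ KK A pos t, dec (rep x) = x)
    (x' : Finset (Fin a) × Finset (Fin b)) (hx' : x' ∈ KK A pos (t+1)) :
    ∃ col : Fin u → K, (∀ k, Ok A pos t (col k)) ∧
      mn (part A pos (t+1)) x'.1 x'.2 =
        ∑ k, mn (part A pos t) (dec k).1 (dec k).2 * col k := by
  classical
  obtain ⟨R, C⟩ := x'
  have hs := KK_sup hx'
  have hFR : FR A pos t ⊆ R := (FR_mono t).trans hs.1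
  have hFC : FC A pos t ⊆ C := (FC_mono t).trans hs.2
  have hone : ∀ (x : Finset (Fin a) × Finset (Fin b)) (z : K) (P : Prop) [Decidable P],
      (P → x ∈ KK A pos t) →
      ∑ k, mn (part A pos t) (dec k).1 (dec k).2 * (if P ∧ k = rep x then z else 0) =
        if P then mn (part A pos t) x.1 x.2 * z else 0 := by
    intro x z P _ hx
    by_cases hP : P
    · rw [if_pos hP, Finset.sum_eq_single (rep x)]
      · rw [if_pos ⟨hP, rfl⟩, hrep x (hx hP)]
      · intro k _ hk
        rw [if_neg (fun h => hk h.2), mul_zero]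
      · intro h; exact absurd (mem_univ _) h
    · rw [if_neg hP]
      apply Finset.sum_eq_zero
      intro k _
      rw [if_neg (fun h => hP h.1), mul_zero]
  have hA1 : (if (R, C) ∈ KK A pos t then mn (part A pos t) R C * 1 else 0) =
      mn (part A pos t) R C := by
    split_ifs with h
    · rw [mul_one]
    · rcases KK_or hFR hFC with h' | h'
      · exact absurd h' h
      · exact h'.symm
  by_cases hcell : ∃ i j, A i j ≠ 0 ∧ pos i j = t
  · obtain ⟨i, j, h0, ht⟩ := hcell
    have hz : part A pos t i j = 0 := by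
      rw [part_apply, if_neg (by omega)]
    obtain ⟨ε, hε, hup⟩ := mn_upd (part A pos t) i j hz R C
    have hi : i ∉ FR A pos t := by
      intro hi
      unfold FR at hi
      rw [mem_filter] at hi
      have := hi.2 j h0
      omega
    have hj : j ∉ FC A pos t := by
      intro hj
      unfold FC at hj
      rw [mem_filter] at hj
      have := hj.2 i h0
      omega
    have hFR2 : FR A pos t ⊆ R.erase i := fun x hx =>
      mem_erase.2 ⟨fun h => hi (h ▸ hx), hFR hx⟩
    have hFC2 : FC A pos t ⊆ C.erase j := fun x hx =>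
      mem_erase.2 ⟨fun h => hj (h ▸ hx), hFC hx⟩
    refine ⟨fun k => (if (R, C) ∈ KK A pos t ∧ k = rep (R, C) then 1 else 0) +
      (if ((i ∈ R ∧ j ∈ C) ∧ (R.erase i, C.erase j) ∈ KK A pos t) ∧ k = rep (R.erase i, C.erase j)
        then (ε : K) * A i j else 0), ?_, ?_⟩
    · intro k
      by_cases h1 : (R, C) ∈ KK A pos t ∧ k = rep (R, C)
      · have h2 : ¬ (((i ∈ R ∧ j ∈ C) ∧ (R.erase i, C.erase j) ∈ KK A pos t) ∧
            k = rep (R.erase i, C.erase j)) := by
          rintro ⟨⟨⟨h3, _⟩, h4⟩, h5⟩
          have e1 := hrep _ h1.1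
          have e2 := hrep _ h4
          rw [← h1.2] at e1
          rw [← h5, e1] at e2
          have e3 : R = R.erase i := congrArg Prod.fst e2
          rw [e3] at h3
          exact notMem_erase i R h3
        simp only [if_pos h1, if_neg h2, add_zero]
        exact Or.inr (Or.inl rfl)
      · by_cases h2 : ((i ∈ R ∧ j ∈ C) ∧ (R.erase i, C.erase j) ∈ KK A pos t) ∧
            k = rep (R.erase i, C.erase j)
        · simp only [if_neg h1, if_pos h2, zero_add]
          refine Or.inr (Or.inr ⟨i, j, h0, ht, ?_⟩)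
          rcases hε with h | h
          · left; rw [h]; simp
          · right; rw [h]; simp
        · simp only [if_neg h1, if_neg h2, add_zero]
          exact Or.inl rfl
    · show mn (part A pos (t+1)) R C = _
      rw [part_succ hinj h0 ht, hup]
      simp only [mul_add, Finset.sum_add_distrib]
      rw [hone (R, C) 1 _ id, hone (R.erase i, C.erase j) _ _ (fun h => h.2), hA1]
      congr 1
      by_cases hc : i ∈ R ∧ j ∈ C
      · rw [if_pos hc]
        rcases KK_or hFR2 hFC2 with h' | h'
        · rw [if_pos ⟨hc, h'⟩]; ring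
        · rw [h']; simp
      · rw [if_neg hc, if_neg (fun h => hc h.1)]
  · refine ⟨fun k => if (R, C) ∈ KK A pos t ∧ k = rep (R, C) then 1 else 0, ?_, ?_⟩
    · intro k
      show Ok A pos t (if (R, C) ∈ KK A pos t ∧ k = rep (R, C) then 1 else 0)
      split_ifs
      · exact Or.inr (Or.inl rfl)
      · exact Or.inl rfl
    · show mn (part A pos (t+1)) R C = _
      rw [part_succ_none (fun i j h h' => hcell ⟨i, j, h, h'⟩), hone (R, C) 1 _ id, hA1]

theorem KK_ne (t : ℕ) : (FR A pos t, FC A pos t) ∈ KK A pos t := by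
  classical
  unfold KK
  exact mem_image.2 ⟨(∅, ∅), mem_product.2 ⟨empty_mem_powerset _, empty_mem_powerset _⟩, by simp⟩

theorem exists_dec {t u : ℕ} (h : (KK A pos t).card ≤ u) :
    ∃ (dec : Fin u → Finset (Fin a) × Finset (Fin b))
      (rep : Finset (Fin a) × Finset (Fin b) → Fin u),
      (∀ k, dec k ∈ KK A pos t) ∧ ∀ x ∈ KK A pos t, dec (rep x) = x := by
  classical
  obtain ⟨f⟩ : Nonempty ((KK A pos t) ↪ Fin u) := by
    apply Function.Embedding.nonempty_of_card_le
    simpa using h
  let x0 : KK A pos t := ⟨_, KK_ne t⟩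
  refine ⟨fun k => if h : ∃ y : KK A pos t, f y = k then (Classical.choose h).1 else x0.1,
    fun x => if h : x ∈ KK A pos t then f ⟨x, h⟩ else f x0, fun k => ?_, fun x hx => ?_⟩
  · dsimp only
    split_ifs with h
    · exact (Classical.choose h).2
    · exact x0.2
  · dsimp only
    rw [dif_pos hx]
    have hex : ∃ y : KK A pos t, f y = f ⟨x, hx⟩ := ⟨_, rfl⟩
    rw [dif_pos hex]
    have := f.injective (Classical.choose_spec hex)
    exact congrArg Subtype.val this

/-- the contents of the registers -/
def cont {u : ℕ} (c₀ : Fin u → K) (M : ℕ → Matrix (Fin u) (Fin u) K) : ℕ → Fin u → K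
  | 0 => c₀
  | t + 1 => Matrix.vecMul (cont c₀ M t) (M t)

/-- the determinant is computed by a linear program with `u ≥ 4^w` registers -/
theorem exists_program {A : Matrix (Fin a) (Fin a) K} {pos : Fin a → Fin a → ℕ}
    (hinj : Inj A pos) {w u T : ℕ} (hu : 4^w ≤ u)
    (hw : ∀ t, (LR A pos t).card ≤ w ∧ (LC A pos t).card ≤ w)
    (hT : ∀ i j, A i j ≠ 0 → pos i j < T) :
    ∃ (c₀ : Fin u → K) (M : ℕ → Matrix (Fin u) (Fin u) K) (k : Fin u),
      (∀ k, c₀ k = 0 ∨ c₀ k = 1) ∧ (∀ t k k', Ok A pos t (M t k k')) ∧ cont c₀ M T k = A.det := by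
  classical
  have hK : ∀ t, _ := fun t => exists_dec (A := A) (pos := pos) (t := t)
    ((KK_card (hw t).1 (hw t).2).trans hu)
  choose dec rep hdec hrep using hK
  have hst : ∀ t (k' : Fin u), ∃ col : Fin u → K, (∀ k, Ok A pos t (col k)) ∧
      mn (part A pos (t+1)) (dec (t+1) k').1 (dec (t+1) k').2 =
        ∑ k, mn (part A pos t) (dec t k).1 (dec t k).2 * col k := fun t k' =>
    step hinj t u (dec t) (rep t) (hrep t) _ (hdec (t+1) k')
  choose col hcol hsum using hst
  refine ⟨fun k => mn (part A pos 0) (dec 0 k).1 (dec 0 k).2, fun t k k' => col t k' k,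
    rep T (univ, univ), ?_, fun t k k' => hcol t k' k, ?_⟩
  · intro k
    have : part A pos 0 = 0 := by
      ext i j; rw [part_apply, if_neg (Nat.not_lt_zero _)]; rfl
    rw [this]
    exact mn_zero _ _
  · have key : ∀ t k, cont (fun k => mn (part A pos 0) (dec 0 k).1 (dec 0 k).2)
        (fun t k k' => col t k' k) t k = mn (part A pos t) (dec t k).1 (dec t k).2 := by
      intro t
      induction t with
      | zero => intro k; rfl
      | succ t ih =>
        intro k
        rw [hsum]
        simp only [cont, Matrix.vecMul, dotProduct]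
        exact Finset.sum_congr rfl fun k' _ => by rw [ih]
    have hFR : FR A pos T = univ := by
      ext i; unfold FR; simp only [mem_filter, mem_univ, true_and, iff_true]; exact hT i
    have hFC : FC A pos T = univ := by
      ext j; unfold FC; simp only [mem_filter, mem_univ, true_and, iff_true]
      exact fun i => hT i j
    have hmem : ((univ : Finset (Fin a)), (univ : Finset (Fin a))) ∈ KK A pos T := by
      have := KK_ne (A := A) (pos := pos) T
      rwa [hFR, hFC] at this
    rw [key, hrep T _ hmem]
    have : part A pos T = A := by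
      ext i j; rw [part_apply]
      by_cases h : pos i j < T
      · rw [if_pos h]
      · rw [if_neg h]
        by_contra hA
        exact h (hT i j (fun h' => hA h'.symm))
    rw [this]
    exact mn_univ A

end Pool.Agent.H820R5.BW
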