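import Mathlib

/-!
A matrix of rank `r` over a field has a nonzero minor of size `r`.
-/

namespace Pool.Agent.H820R5.BW

theorem exists_rows {F : Type*} [Field F] {a b : ℕ} (B : Matrix (Fin a) (Fin b) F) :
    ∃ e : Fin B.rank → Fin a, LinearIndependent F (B.submatrix e id).row := by
  have h := Submodule.exists_fun_fin_finrank_span_eq F (Set.range B.row)
  rw [← B.rank_eq_finrank_span_row] at h
  obtain ⟨f, hf, -, hli⟩ := h
  choose e he using hf
  refine ⟨e, ?_⟩
  have : (B.submatrix e id).row = f := by
    funext i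
    rw [← he i]
    rfl
  rw [this]
  exact hli

theorem exists_minor {F : Type*} [Field F] {a b : ℕ} (B : Matrix (Fin a) (Fin b) F) :
    ∃ (e : Fin B.rank → Fin a) (f : Fin B.rank → Fin b), (B.submatrix e f).det ≠ 0 := by
  obtain ⟨e, he⟩ := exists_rows B
  have h1 : (B.submatrix e id).rank = B.rank := by
    rw [he.rank_matrix, Fintype.card_fin]
  have h2 : (B.submatrix e id).transpose.rank = B.rank := by
    rw [Matrix.rank_transpose, h1]
  obtain ⟨f, hf⟩ := exists_rows (B.submatrix e id).transpose
  refine ⟨e, f ∘ finCongr h2.symm, ?_⟩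
  have h3 : LinearIndependent F (B.submatrix e (f ∘ finCongr h2.symm)).transpose.row := by
    have := hf.comp (finCongr h2.symm) (finCongr h2.symm).injective
    exact this
  have h4 := Matrix.linearIndependent_rows_iff_isUnit.1 h3
  rw [Matrix.isUnit_iff_isUnit_det, Matrix.det_transpose] at h4
  exact h4.ne_zero

theorem le_rank_of_minor {F : Type*} [Field F] {a b r : ℕ} (B : Matrix (Fin a) (Fin b) F)
    (e : Fin r → Fin a) (f : Fin r → Fin b) (h : (B.submatrix e f).det ≠ 0) : r ≤ B.rank := by
  have h1 := Matrix.rank_of_det_ne_zero h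
  rw [Fintype.card_fin] at h1
  rw [← h1]
  exact Matrix.rank_submatrix_le B e f

end Pool.Agent.H820R5.BW
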